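import Pool.Agent.Helper30.KC.GoalsI

/-!
# Project KI (MP_bf413e_co), packet FW: all components of a stuck set
-/

set_option autoImplicit false

namespace Pool.Agent.Helper29.KI

open scoped Classical
open Finset
open Pool.Agent.Helper94.KC
open Pool.Agent.Helper30.KC

section
variable {V : Type} [Fintype V]

lemma mem_edW {T : Finset (Finset V)} {W : Finset V} {e : Finset V} :
    e ∈ edW T W ↔ e ∈ ed T ∧ e ⊆ W := by
  simp [edW]

lemma edW_mono {T : Finset (Finset V)} {W W' : Finset V} (h : W ⊆ W') : edW T W ⊆ edW T W' := by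
  intro e he
  rw [mem_edW] at he ⊢
  exact ⟨he.1, he.2.trans h⟩

omit [Fintype V] in
lemma gr_mono {F F' : Finset (Finset V)} (h : F ⊆ F') : gr F ≤ gr F' := by
  intro u v huv
  exact ⟨huv.1, h huv.2⟩

/-- an edge of the graph is in `ed T` -/
lemma pair_mem_ed {T : Finset (Finset V)} {u v : V} (h : (sk T).Adj u v) :
    ({u, v} : Finset V) ∈ ed T := by
  obtain ⟨hne, t, ht, hu, hv⟩ := h
  simp only [ed, mem_filter, mem_univ, true_and]
  refine ⟨Finset.card_pair hne, t, ht, ?_⟩
  intro y hy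
  simp only [mem_insert, mem_singleton] at hy
  rcases hy with rfl | rfl
  · exact hu
  · exact hv

lemma gr_of_adj {T : Finset (Finset V)} {W : Finset V} {u v : V} (h : (sk T).Adj u v)
    (hu : u ∈ W) (hv : v ∈ W) : (gr (edW T W)).Adj u v := by
  refine ⟨h.1, mem_edW.mpr ⟨pair_mem_ed h, ?_⟩⟩
  intro y hy
  simp only [mem_insert, mem_singleton] at hy
  rcases hy with rfl | rfl
  · exact hu
  · exact hv

lemma gr_adj_mem {T : Finset (Finset V)} {W : Finset V} {u v : V} (h : (gr (edW T W)).Adj u v) :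
    u ∈ W ∧ v ∈ W := by
  have := (mem_edW.mp h.2).2
  exact ⟨this (by simp), this (by simp)⟩

end

theorem pFW (MW : StmtMW) (CN2 : StmtCN2) (IN : StmtIN) (EV : StmtEV) : StmtFW := by
  intro V _ T W ρ hT hHD hEW hcu htwo hstk x₀ w hw x hx hh hxW z hz hz2
  obtain ⟨u₀, u₀', hu₀, hu₀', huu⟩ := htwo
  have hWne : W ≠ univ := by
    intro h
    exact hu₀ (h ▸ mem_univ u₀)
  by_contra hcon
  have hnb : ¬ Bounds T z := fun hb => hcon (IN V T hT W hWne hcu z hz hb)
  have hzed : z ⊆ ed T := fun e he => (mem_edW.mp (hz he)).1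
  obtain ⟨x₁, w₁, hcyc, hw₁z, hw₁nb⟩ := CN2 V T hT z hzed hz2 hnb
  -- the walk in `gr (edW T W)`
  have hedges : ∀ e ∈ w₁.edges, e ∈ (gr (edW T W)).edgeSet := by
    intro e he
    have hadj := w₁.edges_subset_edgeSet he
    have hmem : e.toFinset ∈ wed w₁ := by
      simp only [wed, List.mem_toFinset, List.mem_map]
      exact ⟨e, he, rfl⟩
    induction e using Sym2.ind with
    | _ u v =>
      rw [SimpleGraph.mem_edgeSet] at hadj ⊢
      refine ⟨hadj.1, ?_⟩
      have := hz (hw₁z hmem)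
      rwa [Sym2.toFinset_mk_eq] at this
  set p₁ := w₁.transfer (gr (edW T W)) hedges with hp₁
  have hsupp : p₁.support = w₁.support := SimpleGraph.Walk.support_transfer _ _
  have hreach : ∀ v ∈ w₁.support, (gr (edW T W)).Reachable x₁ v := by
    intro v hv
    rw [← hsupp] at hv
    exact ⟨p₁.takeUntil v hv⟩
  have hvW : ∀ v ∈ w₁.support, v ∈ W := by
    intro v hv
    -- `v` is on an edge of `w₁`
    obtain ⟨e, he, hve⟩ : ∃ e ∈ w₁.edges, v ∈ e := by
      have hnn : ¬ w₁.Nil := hcyc.not_nil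
      exact (SimpleGraph.Walk.mem_support_iff_exists_mem_edges_of_not_nil hnn).mp hv
    have := hedges e he
    induction e using Sym2.ind with
    | _ u u' =>
      rw [SimpleGraph.mem_edgeSet] at this
      have h2 := gr_adj_mem this
      rcases Sym2.mem_iff.mp hve with rfl | rfl
      · exact h2.1
      · exact h2.2
  -- the component
  set W₁ : Finset V := W.filter (fun v => (gr (edW T W)).Reachable x₁ v) with hW₁
  have hmemW₁ : ∀ v, v ∈ W₁ ↔ v ∈ W ∧ (gr (edW T W)).Reachable x₁ v := by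
    intro v; simp [hW₁]
  have hW₁W : W₁ ⊆ W := Finset.filter_subset _ _
  have hx₁ : x₁ ∈ W₁ := (hmemW₁ x₁).mpr ⟨hvW x₁ w₁.start_mem_support, SimpleGraph.Reachable.refl _⟩
  have hstep : ∀ a c, a ∈ W₁ → c ∈ W → (sk T).Adj a c → c ∈ W₁ := by
    intro a c ha hc hac
    have ha' := (hmemW₁ a).mp ha
    exact (hmemW₁ c).mpr ⟨hc, ha'.2.trans (gr_of_adj hac ha'.1 hc).reachable⟩
  have hskadj : ∀ a c, (gr (edW T W)).Adj a c → (sk T).Adj a c := by
    intro a c hac
    have h1 := (mem_edW.mp hac.2).1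
    simp only [ed, mem_filter, mem_univ, true_and] at h1
    obtain ⟨_, t, ht, hsub⟩ := h1
    exact ⟨hac.1, t, ht, hsub (by simp), hsub (by simp)⟩
  have hwalk : ∀ a b (p : (gr (edW T W)).Walk a b), a ∈ W₁ → (gr (edW T W₁)).Reachable a b := by
    intro a b p
    induction p with
    | nil => intro _; exact SimpleGraph.Reachable.refl _
    | @cons a c b hac p ih =>
      intro ha
      have hc : c ∈ W₁ := hstep a c ha (gr_adj_mem hac).2 (hskadj a c hac)
      exact (gr_of_adj (hskadj a c hac) ha hc).reachable.trans (ih hc)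
  have hcw : ConW T W₁ := by
    intro u hu v hv
    obtain ⟨p⟩ := ((hmemW₁ u).mp hu).2.symm.trans ((hmemW₁ v).mp hv).2
    exact hwalk u v p hu
  -- the complement
  have hout : ∀ v b (p : (sk T).Walk v b), b ∉ W → v ∉ W₁ →
      ∃ u, u ∉ W ∧ (gr (edW T (univ \ W₁))).Reachable v u := by
    intro v b p
    induction p with
    | nil => intro hb _; exact ⟨_, hb, SimpleGraph.Reachable.refl _⟩
    | @cons v c b hvc p ih =>
      intro hb hv
      by_cases hvW' : v ∈ W
      · have hc : c ∉ W₁ := by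
          intro hc
          exact hv (hstep c v hc hvW' hvc.symm)
        obtain ⟨u, hu, hr⟩ := ih hb hc
        exact ⟨u, hu, (gr_of_adj hvc (by simp [hv]) (by simp [hc])).reachable.trans hr⟩
      · exact ⟨v, hvW', SimpleGraph.Reachable.refl _⟩
  have hUU : (univ \ W : Finset V) ⊆ univ \ W₁ := Finset.sdiff_subset_sdiff (Finset.Subset.refl _) hW₁W
  have hcu₁ : ConW T (univ \ W₁) := by
    intro v hv v' hv'
    simp only [mem_sdiff, mem_univ, true_and] at hv hv'
    obtain ⟨p⟩ := hT.conn.preconnected v u₀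
    obtain ⟨p'⟩ := hT.conn.preconnected v' u₀
    obtain ⟨u, hu, hr⟩ := hout v u₀ p hu₀ hv
    obtain ⟨u', hu', hr'⟩ := hout v' u₀ p' hu₀ hv'
    have h3 := (hcu u (by simp [hu]) u' (by simp [hu'])).mono (gr_mono (edW_mono hUU))
    exact hr.trans (h3.trans hr'.symm)
  have hStk : Stk T W₁ := by
    refine ⟨⟨x₁, hx₁⟩, hcw, hcu₁, ⟨u₀, u₀', fun h => hu₀ (hW₁W h), fun h => hu₀' (hW₁W h), huu⟩, ?_⟩
    rintro y hy ⟨u, hu, hyu⟩
    have huW : u ∉ W := fun h => hu (hstep y u hy h hyu)
    refine (hstk y (hW₁W hy) ⟨u, huW, hyu⟩).trans (le_of_eq ?_)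
    unfold dR
    congr 1
    ext c
    simp only [mem_filter]
    constructor
    · rintro ⟨hc, hyc⟩
      exact ⟨hstep y c hy hc hyc, hyc⟩
    · rintro ⟨hc, hyc⟩
      exact ⟨hW₁W hc, hyc⟩
  have hev := (EV V T hT).2.2.2.1 x₁ w₁ hcyc
  refine hw₁nb (MW V T W₁ ρ hT hStk hHD hEW x₀ w hw x hx hh
    (fun y hy h => hxW y hy (hW₁W h)) (wed w₁) ?_ hev.1)
  intro e he
  refine mem_edW.mpr ⟨hev.2.2 he, ?_⟩
  simp only [wed, List.mem_toFinset, List.mem_map] at he
  obtain ⟨e', he', rfl⟩ := he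
  intro v hv
  have hv' : v ∈ w₁.support := by
    induction e' using Sym2.ind with
    | _ u u' =>
      rw [Sym2.toFinset_mk_eq] at hv
      simp only [mem_insert, mem_singleton] at hv
      rcases hv with rfl | rfl
      · exact w₁.fst_mem_support_of_mem_edges he'
      · exact w₁.snd_mem_support_of_mem_edges he'
  exact (hmemW₁ v).mpr ⟨hvW v hv', hreach v hv'⟩

end Pool.Agent.Helper29.KI
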